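import Mathlib
import Pool.Agent.H87CL.Hedge

set_option autoImplicit false

/-!
A zero-dimensional Hausdorff cellular-Lindelof space with a diagonal of rank 2 whose cardinality is
the successor of the continuum.
-/

namespace Pool.Agent.Results.MP_ca288e_gt.TychonoffCounterexample

open Cardinal Set Topology

universe u

/-- A cellular family: pairwise disjoint nonempty open sets. -/
def IsCellularFamily {X : Type u} [TopologicalSpace X] (F : Set (Set X)) : Prop :=
  (∀ U ∈ F, IsOpen U ∧ U.Nonempty) ∧ ∀ U ∈ F, ∀ V ∈ F, U ≠ V → U ∩ V = ∅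

/-- Every cellular family is met by a subset which is Lindelof in its subspace topology. -/
def CellularLindelof (X : Type u) [TopologicalSpace X] : Prop :=
  ∀ F : Set (Set X), IsCellularFamily F →
    ∃ L : Set X, LindelofSpace L ∧ ∀ U ∈ F, (L ∩ U).Nonempty

/-- `St(A, G)`: the union of all members of `G` that meet `A`. -/
def St {X : Type u} (A : Set X) (G : Set (Set X)) : Set X :=
  ⋃₀ {U | U ∈ G ∧ (U ∩ A).Nonempty}

/-- A diagonal of rank 2: open covers `G n` such that for distinct `x`, `y` some double star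
`St(St(x, G n), G n)` does not contain `y`. -/
def HasRankTwoDiagonal (X : Type u) [TopologicalSpace X] : Prop :=
  ∃ G : ℕ → Set (Set X), (∀ n, (∀ U ∈ G n, IsOpen U) ∧ ⋃₀ G n = Set.univ) ∧
    ∀ x y : X, x ≠ y → ∃ n, y ∉ St (St {x} (G n)) (G n)

/-- Every point has a neighbourhood base of clopen sets. -/
def ZeroDimensional (X : Type u) [TopologicalSpace X] : Prop :=
  ∀ (x : X) (O : Set X), IsOpen O → x ∈ O → ∃ V : Set X, IsClopen V ∧ x ∈ V ∧ V ⊆ O

theorem result : ∃ (X : Type u) (_ : TopologicalSpace X),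
    T35Space X ∧ ZeroDimensional X ∧ CellularLindelof X ∧ HasRankTwoDiagonal X ∧
      #X = Order.succ 𝔠 := by
  obtain ⟨Y, tY, ⟨K, tK, _, _, _, e, he⟩, hcl, ⟨G, hGo, hGc, hG⟩, hcard⟩ :=
    Pool.Agent.H87CL.counterexample2
  let h : ULift.{u} Y ≃ₜ Y := Homeomorph.ulift
  have hz : ZeroDimensional (ULift.{u} Y) := by
    intro x O hO hx
    have hO' : IsOpen (h.symm ⁻¹' O) := hO.preimage h.symm.continuous
    obtain ⟨V, hV, hxV, hVO⟩ := Pool.Agent.H87CL.induced_clopen he hO' (x := h x) (by simpa using hx)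
    refine ⟨h ⁻¹' V, hV.preimage h.continuous, hxV, fun y hy => ?_⟩
    have := hVO hy
    simpa using this
  have hinj : Function.Injective e := by
    intro x y hxy
    by_contra hne
    obtain ⟨n, hn⟩ := hG x y hne
    obtain ⟨V, hV, hxV⟩ : ∃ V ∈ G n, x ∈ V := by
      have : x ∈ ⋃₀ G n := by rw [hGc n]; trivial
      exact this
    apply hn
    refine ⟨V, hV, V, hV, hxV, ⟨x, hxV, hxV⟩, ?_⟩
    obtain ⟨P, -, rfl⟩ := he.isOpen_iff.1 (hGo n V hV)
    show e y ∈ P
    rw [← hxy]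
    exact hxV
  have hemb : IsEmbedding e := ⟨he, hinj⟩
  refine ⟨ULift.{u} Y, inferInstance, ?_, hz, ?_, ?_, ?_⟩
  · exact (hemb.comp h.isEmbedding).t35Space
  · intro F hF
    obtain ⟨L, hL, hLF⟩ := hcl ((fun U => h.symm ⁻¹' U) '' F) (by
      rintro _ ⟨U, hU, rfl⟩
      refine ⟨(hF.1 U hU).1.preimage h.symm.continuous, ?_⟩
      obtain ⟨x, hx⟩ := (hF.1 U hU).2
      exact ⟨h x, by simpa using hx⟩) (by
      rintro _ ⟨U, hU, rfl⟩ _ ⟨V, hV, rfl⟩ hUV
      show Disjoint (h.symm ⁻¹' U) (h.symm ⁻¹' V)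
      have hne : U ≠ V := fun hh => hUV (by rw [hh])
      rw [Set.disjoint_iff_inter_eq_empty, ← preimage_inter, hF.2 U hU V hV hne, preimage_empty])
    refine ⟨h ⁻¹' L, ?_, ?_⟩
    · have h1 : IsLindelof (h.symm '' L) := hL.image h.symm.continuous
      rw [Homeomorph.image_symm] at h1
      exact isLindelof_iff_lindelofSpace.1 h1
    · intro U hU
      obtain ⟨y, hyL, hyU⟩ := hLF _ ⟨U, hU, rfl⟩
      exact ⟨h.symm y, by simpa using hyL, hyU⟩
  · refine ⟨fun n => (fun U => h ⁻¹' U) '' G n, fun n => ⟨?_, ?_⟩, ?_⟩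
    · rintro _ ⟨U, hU, rfl⟩
      exact (hGo n U hU).preimage h.continuous
    · rw [sUnion_eq_univ_iff]
      intro x
      obtain ⟨V, hV, hxV⟩ : ∃ V ∈ G n, h x ∈ V := by
        have : h x ∈ ⋃₀ G n := by rw [hGc n]; trivial
        exact this
      exact ⟨_, ⟨V, hV, rfl⟩, hxV⟩
    · intro x y hxy
      obtain ⟨n, hn⟩ := hG (h x) (h y) (fun hh => hxy (h.injective hh))
      refine ⟨n, ?_⟩
      rintro ⟨_, ⟨⟨W, hW, rfl⟩, z, hzW, hz'⟩, hyW⟩
      obtain ⟨_, ⟨⟨V, hV, rfl⟩, w, hwV, hw⟩, hzV⟩ := hz'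
      have hwx : w = x := hw
      subst hwx
      exact hn ⟨V, hV, W, hW, hwV, ⟨h z, hzV, hzW⟩, hyW⟩
  · rw [mk_uLift, hcard]
    simp

end Pool.Agent.Results.MP_ca288e_gt.TychonoffCounterexample
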